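import Pool.Agent.TH231.AT.Rgen

/-!
# Solutions of the Parisi equation: right derivative in time, joint continuity, growth
-/

set_option autoImplicit false

open MeasureTheory ProbabilityTheory Set Filter Topology

namespace Pool.TH231.AT

open Pool.TH198.AT

/-- monotone extension of a distribution function from `[0,1]` to the line -/
noncomputable def ext (ζ : ℝ → ℝ) (r : ℝ) : ℝ := ζ (max 0 (min 1 r))

theorem clamp_mem (r : ℝ) : max 0 (min 1 r) ∈ Icc (0 : ℝ) 1 :=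
  ⟨le_max_left _ _, max_le zero_le_one (min_le_left _ _)⟩

theorem clamp_eq {r : ℝ} (hr : r ∈ Icc (0 : ℝ) 1) : max 0 (min 1 r) = r := by
  rw [min_eq_right hr.2, max_eq_right hr.1]

theorem ext_eq {ζ : ℝ → ℝ} {r : ℝ} (hr : r ∈ Icc (0 : ℝ) 1) : ext ζ r = ζ r := by
  unfold ext
  rw [clamp_eq hr]

theorem ext_measurable {ζ : ℝ → ℝ} (hζ : IsCdf ζ) : Measurable (ext ζ) := by
  have h : Monotone (ext ζ) := by
    intro r u hru
    exact hζ.1 (clamp_mem r) (clamp_mem u) (max_le_max le_rfl (min_le_min le_rfl hru))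
  exact h.measurable

theorem ext_nonneg {ζ : ℝ → ℝ} (hζ : IsCdf ζ) (r : ℝ) : 0 ≤ ext ζ r :=
  (hζ.2.1 _ (clamp_mem r)).1

theorem ext_le_one {ζ : ℝ → ℝ} (hζ : IsCdf ζ) (r : ℝ) : ext ζ r ≤ 1 :=
  (hζ.2.1 _ (clamp_mem r)).2

theorem abs_ext_le {ζ : ℝ → ℝ} (hζ : IsCdf ζ) (r : ℝ) : |ext ζ r| ≤ 1 := by
  rw [abs_of_nonneg (ext_nonneg hζ r)]
  exact ext_le_one hζ r

theorem eventually_mem_Icc {t : ℝ} (ht : t ∈ Ico (0 : ℝ) 1) :
    ∀ᶠ r in 𝓝[Ici t] t, r ∈ Icc (0 : ℝ) 1 := by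
  have h1 : ∀ᶠ r in 𝓝[Ici t] t, r < 1 := nhdsWithin_le_nhds (gt_mem_nhds ht.2)
  filter_upwards [h1, self_mem_nhdsWithin] with r h1 h2
  exact ⟨ht.1.trans h2, h1.le⟩

theorem ext_right {ζ : ℝ → ℝ} (hζ : IsCdf ζ) {t : ℝ} (ht : t ∈ Ico (0 : ℝ) 1) :
    ContinuousWithinAt (ext ζ) (Ici t) t := by
  refine (hζ.2.2.2 t ht).congr_of_eventuallyEq ?_ (ext_eq ⟨ht.1, ht.2.le⟩)
  filter_upwards [eventually_mem_Icc ht] with r hr
  exact ext_eq hr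

theorem log_cosh_abs_le (x : ℝ) : |Real.log (Real.cosh x)| ≤ |x| := by
  have h0 : 1 ≤ Real.cosh x := Real.one_le_cosh x
  rw [abs_of_nonneg (Real.log_nonneg h0)]
  have h1 : Real.cosh x ≤ Real.exp |x| := by
    rw [← Real.cosh_abs, Real.cosh_eq]
    have h2 : Real.exp (-|x|) ≤ Real.exp |x| :=
      Real.exp_le_exp.2 (by linarith [abs_nonneg x])
    linarith
  calc Real.log (Real.cosh x) ≤ Real.log (Real.exp |x|) :=
        Real.log_le_log (by linarith) h1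
    _ = |x| := Real.log_exp _

theorem continuous_log_cosh : Continuous fun x : ℝ => Real.log (Real.cosh x) :=
  Real.continuous_cosh.log fun x => (Real.cosh_pos x).ne'

/-- Solutions of the Parisi equation. -/
theorem f_part (hL : St_LEIB) {β : ℝ} {ζ : ℝ → ℝ} {f : ℝ → ℝ → ℝ} (hζ : IsCdf ζ)
    (hf : IsParisi β ζ f) :
    ∃ (fx fxx : ℝ → ℝ → ℝ) (C : ℝ), 0 ≤ C ∧
      (∀ t ∈ Icc (0 : ℝ) 1, ∀ x, HasDerivAt (f t) (fx t x) x ∧ HasDerivAt (fx t) (fxx t x) x) ∧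
      (∀ t ∈ Ico (0 : ℝ) 1, ∀ x, HasDerivWithinAt (fun τ => f τ x)
        (-(β ^ 2 * (fxx t x + ζ t * fx t x ^ 2))) (Ici t) t) ∧
      ContinuousOn (fun p : ℝ × ℝ => f p.1 p.2) (Icc 0 1 ×ˢ univ) ∧
      (∀ t ∈ Icc (0 : ℝ) 1, ∀ x, |f t x| ≤ C * (1 + |x|)) ∧
      (∀ t ∈ Icc (0 : ℝ) 1, ∀ x, |fx t x| ≤ C) := by
  obtain ⟨fx, fxx, hd, hcx, hcxx, ⟨C, hC⟩, heq⟩ := hf
  have hC0 : 0 ≤ C := (abs_nonneg _).trans (hC 0 (by simp) 0).1
  set M : ℝ := 1 + β ^ 2 * C + β ^ 2 * C ^ 2 with hM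
  have hβ : 0 ≤ β ^ 2 := sq_nonneg β
  have hM1 : 1 ≤ M := by
    have h1 := mul_nonneg hβ hC0
    have h2 := mul_nonneg hβ (sq_nonneg C)
    linarith
  set g1 : ℝ → ℝ → ℝ → ℝ := fun r _ x => β ^ 2 * fxx r x with hg1
  set g2 : ℝ → ℝ → ℝ → ℝ := fun r _ x => β ^ 2 * fx r x ^ 2 with hg2
  have hmap : Continuous fun p : ℝ × ℝ × ℝ => ((p.1, p.2.2) : ℝ × ℝ) := by fun_prop
  have hmapsto : MapsTo (fun p : ℝ × ℝ × ℝ => ((p.1, p.2.2) : ℝ × ℝ))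
      (Icc (0 : ℝ) 1 ×ˢ Ici (0 : ℝ) ×ˢ (univ : Set ℝ)) (Icc (0 : ℝ) 1 ×ˢ univ) := by
    rintro p ⟨hp, -, -⟩
    exact ⟨hp, mem_univ _⟩
  have c1 : ContinuousOn (fun p : ℝ × ℝ × ℝ => g1 p.1 p.2.1 p.2.2)
      (Icc (0 : ℝ) 1 ×ˢ Ici (0 : ℝ) ×ˢ univ) :=
    continuousOn_const.mul (hcxx.comp hmap.continuousOn hmapsto)
  have c2 : ContinuousOn (fun p : ℝ × ℝ × ℝ => g2 p.1 p.2.1 p.2.2)
      (Icc (0 : ℝ) 1 ×ˢ Ici (0 : ℝ) ×ˢ univ) :=
    continuousOn_const.mul ((hcx.comp hmap.continuousOn hmapsto).pow 2)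
  have b1 : ∀ r ∈ Icc (0 : ℝ) 1, ∀ w : ℝ, 0 ≤ w → ∀ x : ℝ, |g1 r w x| ≤ M := by
    intro r hr w _ x
    simp only [hg1]
    rw [abs_mul, abs_of_nonneg hβ]
    have h1 := mul_le_mul_of_nonneg_left (hC r hr x).2 hβ
    have h2 := mul_nonneg hβ (sq_nonneg C)
    linarith
  have b2 : ∀ r ∈ Icc (0 : ℝ) 1, ∀ w : ℝ, 0 ≤ w → ∀ x : ℝ, |g2 r w x| ≤ M := by
    intro r hr w _ x
    simp only [hg2]
    rw [abs_mul, abs_of_nonneg hβ, abs_pow]
    have h0 : |fx r x| ^ 2 ≤ C ^ 2 := pow_le_pow_left₀ (abs_nonneg _) (hC r hr x).1 2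
    have h1 := mul_le_mul_of_nonneg_left h0 hβ
    have h2 := mul_nonneg hβ hC0
    linarith
  have hρ1 : Measurable (fun _ : ℝ => (1 : ℝ)) := measurable_const
  have hρ2 := ext_measurable hζ
  have bρ1 : ∀ r ∈ Icc (0 : ℝ) 1, |(fun _ : ℝ => (1 : ℝ)) r| ≤ M := by
    intro r _
    simpa using hM1
  have bρ2 : ∀ r ∈ Icc (0 : ℝ) 1, |ext ζ r| ≤ M := fun r _ => (abs_ext_le hζ r).trans hM1
  have heq' : ∀ t ∈ Icc (0 : ℝ) 1, ∀ x, f t x = Real.log (Real.cosh x) +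
      (RI 1 1 (fun _ => 1) g1 t x + RI 1 1 (ext ζ) g2 t x) := by
    intro t ht x
    rw [heq t ht x]
    congr 1
    unfold RI
    rw [← intervalIntegral.integral_add (iint zero_le_one hρ1 bρ1 c1 b1 ht x)
      (iint zero_le_one hρ2 bρ2 c2 b2 ht x)]
    refine intervalIntegral.integral_congr fun r hr => ?_
    rw [uIcc_of_le ht.2] at hr
    have hr' : r ∈ Icc (0 : ℝ) 1 := ⟨ht.1.trans hr.1, hr.2⟩
    simp only [hg1, hg2, ext_eq hr']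
    ring
  have C1 := continuousOn_RI (a := 1) zero_le_one hρ1 bρ1 c1 b1
  have C2 := continuousOn_RI (a := 1) zero_le_one hρ2 bρ2 c2 b2
  refine ⟨fx, fxx, 1 + C + 2 * (M * M), by positivity, hd, ?_, ?_, ?_, ?_⟩
  · intro t ht x
    have ht' : t ∈ Icc (0 : ℝ) 1 := ⟨ht.1, ht.2.le⟩
    have z : ContinuousOn (fun p : ℝ × ℝ × ℝ => (fun _ _ _ => (0 : ℝ)) p.1 p.2.1 p.2.2)
      (Icc (0 : ℝ) 1 ×ˢ Ici (0 : ℝ) ×ˢ (univ : Set ℝ)) := continuousOn_const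
    have d1 := hasDerivWithinAt_RI (gw := fun _ _ _ => (0 : ℝ)) hL zero_lt_one hρ1 bρ1 c1 z
      (fun r _ w _ x => by simpa only [hg1] using hasDerivAt_const w (β ^ 2 * fxx r x))
      ht continuousWithinAt_const x
    have d2 := hasDerivWithinAt_RI (gw := fun _ _ _ => (0 : ℝ)) hL zero_lt_one hρ2 bρ2 c2 z
      (fun r _ w _ x => by simpa only [hg2] using hasDerivAt_const w (β ^ 2 * fx r x ^ 2))
      ht (ext_right hζ ht) x
    have hz : ∀ ρ : ℝ → ℝ, RI 1 1 ρ (fun _ _ _ => (0 : ℝ)) t x = 0 := by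
      intro ρ
      simp [RI]
    rw [hz] at d1 d2
    have d3 := ((hasDerivWithinAt_const t (Ici t) (Real.log (Real.cosh x))).add (d1.add d2))
    refine (d3.congr_of_eventuallyEq ?_ ?_).congr_deriv ?_
    · filter_upwards [eventually_mem_Icc ht] with r hr
      exact heq' r hr x
    · exact heq' t ht' x
    · simp only [hg1, hg2, ext_eq ht']
      ring
  · have h1 : ContinuousOn (fun p : ℝ × ℝ => Real.log (Real.cosh p.2) +
        (RI 1 1 (fun _ => 1) g1 p.1 p.2 + RI 1 1 (ext ζ) g2 p.1 p.2)) (Icc 0 1 ×ˢ univ) :=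
      (continuous_log_cosh.comp continuous_snd).continuousOn.add (C1.add C2)
    exact h1.congr fun p hp => heq' p.1 hp.1 p.2
  · intro t ht x
    rw [heq' t ht x]
    have h1 := abs_RI_le (a := 1) zero_le_one bρ1 b1 ht x
    have h2 := abs_RI_le (a := 1) zero_le_one bρ2 b2 ht x
    have h3 := log_cosh_abs_le x
    have h4 := abs_add_le (Real.log (Real.cosh x))
      (RI 1 1 (fun _ => 1) g1 t x + RI 1 1 (ext ζ) g2 t x)
    have h5 := abs_add_le (RI 1 1 (fun _ => 1) g1 t x) (RI 1 1 (ext ζ) g2 t x)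
    have h6 := abs_nonneg x
    have h7 : 0 ≤ (C + 2 * (M * M)) * |x| := by positivity
    nlinarith
  · intro t ht x
    have h1 := (hC t ht x).1
    have h2 : 0 ≤ M * M := by positivity
    linarith

end Pool.TH231.AT
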