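import Pool.Agent.TH198.AT.Stmts

/-!
# Integrals `∫_t^T ρ(r) k(r, a (r - t), x) dr` as functions of `t` and `x`
-/

set_option autoImplicit false

open MeasureTheory ProbabilityTheory Set Filter Topology

namespace Pool.TH231.AT

open Pool.TH198.AT

/-- a kernel `k (r, w, x)` with its derivatives -/
structure Ker (T0 T1 C : ℝ) (k kx kxx kw : ℝ → ℝ → ℝ → ℝ) : Prop where
  ck : ContinuousOn (fun p : ℝ × ℝ × ℝ => k p.1 p.2.1 p.2.2) (Icc T0 T1 ×ˢ Ici 0 ×ˢ univ)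
  ckx : ContinuousOn (fun p : ℝ × ℝ × ℝ => kx p.1 p.2.1 p.2.2) (Icc T0 T1 ×ˢ Ici 0 ×ˢ univ)
  ckxx : ContinuousOn (fun p : ℝ × ℝ × ℝ => kxx p.1 p.2.1 p.2.2) (Icc T0 T1 ×ˢ Ici 0 ×ˢ univ)
  ckw : ContinuousOn (fun p : ℝ × ℝ × ℝ => kw p.1 p.2.1 p.2.2) (Icc T0 T1 ×ˢ Ici 0 ×ˢ univ)
  bk : ∀ r ∈ Icc T0 T1, ∀ w : ℝ, 0 ≤ w → ∀ x : ℝ, |k r w x| ≤ C
  bkx : ∀ r ∈ Icc T0 T1, ∀ w : ℝ, 0 ≤ w → ∀ x : ℝ, |kx r w x| ≤ C
  bkxx : ∀ r ∈ Icc T0 T1, ∀ w : ℝ, 0 ≤ w → ∀ x : ℝ, |kxx r w x| ≤ C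
  dx : ∀ r ∈ Icc T0 T1, ∀ w : ℝ, 0 ≤ w → ∀ x : ℝ, HasDerivAt (k r w) (kx r w x) x
  dxx : ∀ r ∈ Icc T0 T1, ∀ w : ℝ, 0 ≤ w → ∀ x : ℝ, HasDerivAt (kx r w) (kxx r w x) x
  dw : ∀ r ∈ Icc T0 T1, ∀ w : ℝ, 0 < w → ∀ x : ℝ, HasDerivAt (fun w => k r w x) (kw r w x) w

/-- `∫_t^T ρ(r) k(r, a (r - t), x) dr` -/
noncomputable def RI (a T1 : ℝ) (ρ : ℝ → ℝ) (k : ℝ → ℝ → ℝ → ℝ) (t x : ℝ) : ℝ :=
  ∫ r in t..T1, ρ r * k r (a * (r - t)) x

variable {T0 T1 C a : ℝ} {ρ : ℝ → ℝ}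

theorem contk {g : ℝ → ℝ → ℝ → ℝ} (ha : 0 ≤ a)
    (hg : ContinuousOn (fun p : ℝ × ℝ × ℝ => g p.1 p.2.1 p.2.2) (Icc T0 T1 ×ˢ Ici 0 ×ˢ univ))
    {t : ℝ} (ht : t ∈ Icc T0 T1) (x : ℝ) :
    ContinuousOn (fun r => g r (a * (r - t)) x) (Icc t T1) := by
  have h1 : ContinuousOn (fun r : ℝ => (r, a * (r - t), x)) (Icc t T1) := by fun_prop
  have h2 : MapsTo (fun r : ℝ => (r, a * (r - t), x)) (Icc t T1)
      (Icc T0 T1 ×ˢ Ici 0 ×ˢ univ) := by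
    intro r hr
    refine ⟨⟨ht.1.trans hr.1, hr.2⟩, ?_, mem_univ _⟩
    exact mul_nonneg ha (by linarith [hr.1])
  exact hg.comp h1 h2

theorem aesm {g : ℝ → ℝ → ℝ → ℝ} (ha : 0 ≤ a) (hρ : Measurable ρ)
    (hg : ContinuousOn (fun p : ℝ × ℝ × ℝ => g p.1 p.2.1 p.2.2) (Icc T0 T1 ×ˢ Ici 0 ×ˢ univ))
    {t : ℝ} (ht : t ∈ Icc T0 T1) (x : ℝ) :
    AEStronglyMeasurable (fun r => ρ r * g r (a * (r - t)) x) (volume.restrict (uIoc t T1)) := by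
  have h1 := (contk ha hg ht x).aestronglyMeasurable (μ := volume) measurableSet_Icc
  rw [uIoc_of_le ht.2]
  exact hρ.aestronglyMeasurable.mul (h1.mono_measure (Measure.restrict_mono Ioc_subset_Icc_self le_rfl))

theorem iint {g : ℝ → ℝ → ℝ → ℝ} (ha : 0 ≤ a) (hρ : Measurable ρ)
    (hρC : ∀ r ∈ Icc T0 T1, |ρ r| ≤ C)
    (hg : ContinuousOn (fun p : ℝ × ℝ × ℝ => g p.1 p.2.1 p.2.2) (Icc T0 T1 ×ˢ Ici 0 ×ˢ univ))
    (hgC : ∀ r ∈ Icc T0 T1, ∀ w : ℝ, 0 ≤ w → ∀ x : ℝ, |g r w x| ≤ C)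
    {t : ℝ} (ht : t ∈ Icc T0 T1) (x : ℝ) :
    IntervalIntegrable (fun r => ρ r * g r (a * (r - t)) x) volume t T1 := by
  have hC : 0 ≤ C := (abs_nonneg _).trans (hρC t ht)
  have h0 : IntervalIntegrable (fun _ : ℝ => C * C) volume t T1 := intervalIntegrable_const
  refine h0.mono_fun (aesm ha hρ hg ht x) ?_
  rw [Filter.EventuallyLE, ae_restrict_iff' measurableSet_uIoc]
  refine Eventually.of_forall fun r hr => ?_
  rw [uIoc_of_le ht.2] at hr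
  have hr' : r ∈ Icc T0 T1 := ⟨ht.1.trans hr.1.le, hr.2⟩
  rw [Real.norm_eq_abs, Real.norm_eq_abs, abs_mul, abs_mul, abs_of_nonneg hC]
  exact mul_le_mul (hρC r hr') (hgC r hr' _ (mul_nonneg ha (by linarith [hr.1])) x)
    (abs_nonneg _) hC

/-- derivative in `x` -/
theorem hasDerivAt_RI {g gx : ℝ → ℝ → ℝ → ℝ} (ha : 0 ≤ a) (hρ : Measurable ρ)
    (hρC : ∀ r ∈ Icc T0 T1, |ρ r| ≤ C)
    (hg : ContinuousOn (fun p : ℝ × ℝ × ℝ => g p.1 p.2.1 p.2.2) (Icc T0 T1 ×ˢ Ici 0 ×ˢ univ))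
    (hgx : ContinuousOn (fun p : ℝ × ℝ × ℝ => gx p.1 p.2.1 p.2.2) (Icc T0 T1 ×ˢ Ici 0 ×ˢ univ))
    (hgC : ∀ r ∈ Icc T0 T1, ∀ w : ℝ, 0 ≤ w → ∀ x : ℝ, |g r w x| ≤ C)
    (hgxC : ∀ r ∈ Icc T0 T1, ∀ w : ℝ, 0 ≤ w → ∀ x : ℝ, |gx r w x| ≤ C)
    (hd : ∀ r ∈ Icc T0 T1, ∀ w : ℝ, 0 ≤ w → ∀ x : ℝ, HasDerivAt (g r w) (gx r w x) x)
    {t : ℝ} (ht : t ∈ Icc T0 T1) (x : ℝ) :
    HasDerivAt (RI a T1 ρ g t) (RI a T1 ρ gx t x) x := by
  have hC : 0 ≤ C := (abs_nonneg _).trans (hρC t ht)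
  have key := intervalIntegral.hasDerivAt_integral_of_dominated_loc_of_deriv_le
    (μ := volume) (a := t) (b := T1) (F := fun x r => ρ r * g r (a * (r - t)) x)
    (F' := fun x r => ρ r * gx r (a * (r - t)) x) (x₀ := x) (s := univ)
    (bound := fun _ => C * C) univ_mem
    (Eventually.of_forall fun y => aesm ha hρ hg ht y)
    (iint ha hρ hρC hg hgC ht x) (aesm ha hρ hgx ht x)
    (by
      refine Eventually.of_forall fun r hr y _ => ?_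
      rw [uIoc_of_le ht.2] at hr
      have hr' : r ∈ Icc T0 T1 := ⟨ht.1.trans hr.1.le, hr.2⟩
      rw [Real.norm_eq_abs, abs_mul]
      exact mul_le_mul (hρC r hr') (hgxC r hr' _ (mul_nonneg ha (by linarith [hr.1])) y)
        (abs_nonneg _) hC)
    intervalIntegrable_const
    (by
      refine Eventually.of_forall fun r hr y _ => ?_
      rw [uIoc_of_le ht.2] at hr
      have hr' : r ∈ Icc T0 T1 := ⟨ht.1.trans hr.1.le, hr.2⟩
      exact (hd r hr' _ (mul_nonneg ha (by linarith [hr.1])) y).const_mul (ρ r))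
  exact key.2

/-- bound -/
theorem abs_RI_le {g : ℝ → ℝ → ℝ → ℝ} (ha : 0 ≤ a)
    (hρC : ∀ r ∈ Icc T0 T1, |ρ r| ≤ C)
    (hgC : ∀ r ∈ Icc T0 T1, ∀ w : ℝ, 0 ≤ w → ∀ x : ℝ, |g r w x| ≤ C)
    {t : ℝ} (ht : t ∈ Icc T0 T1) (x : ℝ) : |RI a T1 ρ g t x| ≤ C * C * (T1 - T0) := by
  have hC : 0 ≤ C := (abs_nonneg _).trans (hρC t ht)
  have h1 : ‖∫ r in t..T1, ρ r * g r (a * (r - t)) x‖ ≤ C * C * |T1 - t| := by
    refine intervalIntegral.norm_integral_le_of_norm_le_const fun r hr => ?_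
    rw [uIoc_of_le ht.2] at hr
    have hr' : r ∈ Icc T0 T1 := ⟨ht.1.trans hr.1.le, hr.2⟩
    rw [Real.norm_eq_abs, abs_mul]
    exact mul_le_mul (hρC r hr') (hgC r hr' _ (mul_nonneg ha (by linarith [hr.1])) x)
      (abs_nonneg _) hC
  rw [Real.norm_eq_abs] at h1
  refine h1.trans ?_
  have h2 : |T1 - t| ≤ T1 - T0 := by
    rw [abs_of_nonneg (by linarith [ht.2])]
    linarith [ht.1]
  exact mul_le_mul_of_nonneg_left h2 (mul_nonneg hC hC)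

/-- joint continuity -/
theorem continuousOn_RI {g : ℝ → ℝ → ℝ → ℝ} (ha : 0 ≤ a) (hρ : Measurable ρ)
    (hρC : ∀ r ∈ Icc T0 T1, |ρ r| ≤ C)
    (hg : ContinuousOn (fun p : ℝ × ℝ × ℝ => g p.1 p.2.1 p.2.2) (Icc T0 T1 ×ˢ Ici 0 ×ˢ univ))
    (hgC : ∀ r ∈ Icc T0 T1, ∀ w : ℝ, 0 ≤ w → ∀ x : ℝ, |g r w x| ≤ C) :
    ContinuousOn (fun p : ℝ × ℝ => RI a T1 ρ g p.1 p.2) (Icc T0 T1 ×ˢ univ) := by
  rintro ⟨t0, x0⟩ ⟨ht0, -⟩
  simp only at ht0
  have hC : 0 ≤ C := (abs_nonneg _).trans (hρC t0 ht0)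
  set F : ℝ × ℝ → ℝ → ℝ := fun p r =>
    (Ioi p.1).indicator (fun r => ρ r * g r (a * max (r - p.1) 0) p.2) r with hF
  have heq : ∀ p ∈ Icc T0 T1 ×ˢ (univ : Set ℝ), RI a T1 ρ g p.1 p.2 = ∫ r in Ioc T0 T1, F p r := by
    rintro ⟨t, x⟩ ⟨ht, -⟩
    simp only at ht
    have h1 : Ioc t T1 = Ioc T0 T1 ∩ Ioi t := by
      ext r
      simp only [mem_Ioc, mem_inter_iff, mem_Ioi]
      constructor
      · rintro ⟨h1, h2⟩
        exact ⟨⟨lt_of_le_of_lt ht.1 h1, h2⟩, h1⟩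
      · rintro ⟨⟨_, h2⟩, h3⟩
        exact ⟨h3, h2⟩
    simp only [RI, hF]
    rw [intervalIntegral.integral_of_le ht.2, setIntegral_indicator measurableSet_Ioi, ← h1]
    refine setIntegral_congr_fun measurableSet_Ioc fun r hr => ?_
    rw [max_eq_left (by linarith [hr.1])]
  have hcontg : ∀ r ∈ Icc T0 T1, Continuous fun p : ℝ × ℝ => g r (a * max (r - p.1) 0) p.2 := by
    intro r hr
    have h1 : Continuous fun p : ℝ × ℝ => ((r, a * max (r - p.1) 0, p.2) : ℝ × ℝ × ℝ) := by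
      fun_prop
    rw [← continuousOn_univ]
    refine hg.comp h1.continuousOn ?_
    intro p _
    exact ⟨hr, mul_nonneg ha (le_max_right _ _), mem_univ _⟩
  have key : ContinuousWithinAt (fun p : ℝ × ℝ => ∫ r in Ioc T0 T1, F p r)
      (Icc T0 T1 ×ˢ univ) (t0, x0) := by
    refine continuousWithinAt_of_dominated (bound := fun _ => C * C) ?_ ?_ ?_ ?_
    · refine eventually_of_mem self_mem_nhdsWithin ?_
      rintro ⟨t, x⟩ ⟨ht, -⟩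
      simp only [hF]
      have h1 : ContinuousOn (fun r => g r (a * max (r - t) 0) x) (Icc T0 T1) := by
        have h2 : Continuous fun r : ℝ => ((r, a * max (r - t) 0, x) : ℝ × ℝ × ℝ) := by fun_prop
        refine hg.comp h2.continuousOn ?_
        intro r hr
        exact ⟨hr, mul_nonneg ha (le_max_right _ _), mem_univ _⟩
      have h3 := h1.aestronglyMeasurable (μ := volume) measurableSet_Icc
      have h4 := h3.mono_measure (Measure.restrict_mono (Ioc_subset_Icc_self (a := T0) (b := T1))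
        (le_refl volume))
      exact (hρ.aestronglyMeasurable.mul h4).indicator measurableSet_Ioi
    · refine Eventually.of_forall fun p => ?_
      rw [ae_restrict_iff' measurableSet_Ioc]
      refine Eventually.of_forall fun r hr => ?_
      have hr' : r ∈ Icc T0 T1 := ⟨hr.1.le, hr.2⟩
      simp only [hF]
      by_cases hp : r ∈ Ioi p.1
      · rw [indicator_of_mem hp, Real.norm_eq_abs, abs_mul]
        exact mul_le_mul (hρC r hr') (hgC r hr' _ (mul_nonneg ha (le_max_right _ _)) _)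
          (abs_nonneg _) hC
      · rw [indicator_of_notMem hp, norm_zero]
        exact mul_nonneg hC hC
    · exact integrable_const _
    · rw [ae_restrict_iff' measurableSet_Ioc]
      have hne : ∀ᵐ r : ℝ, r ≠ t0 := by
        have : volume ({t0} : Set ℝ) = 0 := Real.volume_singleton
        rw [ae_iff]
        simp
      filter_upwards [hne] with r hr0 hr
      have hr' : r ∈ Icc T0 T1 := ⟨hr.1.le, hr.2⟩
      rcases lt_or_gt_of_ne hr0 with h | h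
      · -- r < t0
        have h1 : ∀ᶠ p : ℝ × ℝ in 𝓝[Icc T0 T1 ×ˢ univ] (t0, x0), F p r = 0 := by
          have h2 : ∀ᶠ p : ℝ × ℝ in 𝓝 (t0, x0), r < p.1 :=
            continuous_fst.continuousAt.eventually (lt_mem_nhds h)
          filter_upwards [nhdsWithin_le_nhds h2] with p hp
          simp only [hF]
          exact indicator_of_notMem (by simp only [mem_Ioi, not_lt]; exact hp.le) _
        have h3 : F (t0, x0) r = 0 := by
          simp only [hF]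
          exact indicator_of_notMem (by simp only [mem_Ioi, not_lt]; exact h.le) _
        exact (continuousWithinAt_const (b := (0 : ℝ))).congr_of_eventuallyEq h1 h3
      · have h1 : ∀ᶠ p : ℝ × ℝ in 𝓝[Icc T0 T1 ×ˢ univ] (t0, x0),
            F p r = ρ r * g r (a * max (r - p.1) 0) p.2 := by
          have h2 : ∀ᶠ p : ℝ × ℝ in 𝓝 (t0, x0), p.1 < r :=
            continuous_fst.continuousAt.eventually (gt_mem_nhds h)
          filter_upwards [nhdsWithin_le_nhds h2] with p hp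
          simp only [hF]
          exact indicator_of_mem (by simpa only [mem_Ioi] using hp) _
        have h3 : F (t0, x0) r = ρ r * g r (a * max (r - t0) 0) x0 := by
          simp only [hF]
          exact indicator_of_mem (by simpa only [mem_Ioi] using h) _
        have h4 : ContinuousWithinAt (fun p : ℝ × ℝ => ρ r * g r (a * max (r - p.1) 0) p.2)
            (Icc T0 T1 ×ˢ univ) (t0, x0) :=
          ((hcontg r hr').const_mul _).continuousWithinAt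
        exact h4.congr_of_eventuallyEq h1 h3
  exact key.congr (fun p hp => heq p hp) (heq _ ⟨ht0, mem_univ _⟩)

/-- right derivative in `t` -/
theorem hasDerivWithinAt_RI {g gw : ℝ → ℝ → ℝ → ℝ} (h : St_LEIB) (ha : 0 < a) (hρ : Measurable ρ)
    (hρC : ∀ r ∈ Icc T0 T1, |ρ r| ≤ C)
    (hg : ContinuousOn (fun p : ℝ × ℝ × ℝ => g p.1 p.2.1 p.2.2) (Icc T0 T1 ×ˢ Ici 0 ×ˢ univ))
    (hgw : ContinuousOn (fun p : ℝ × ℝ × ℝ => gw p.1 p.2.1 p.2.2) (Icc T0 T1 ×ˢ Ici 0 ×ˢ univ))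
    (hd : ∀ r ∈ Icc T0 T1, ∀ w : ℝ, 0 < w → ∀ x : ℝ, HasDerivAt (fun w => g r w x) (gw r w x) w)
    {t : ℝ} (ht : t ∈ Ico T0 T1) (hρt : ContinuousWithinAt ρ (Ici t) t) (x : ℝ) :
    HasDerivWithinAt (fun t => RI a T1 ρ g t x) (-(ρ t * g t 0 x) - a * RI a T1 ρ gw t x)
      (Ici t) t := by
  have hsub : Icc t T1 ⊆ Icc T0 T1 := Icc_subset_Icc ht.1 le_rfl
  have hmap : ∀ f : ℝ → ℝ → ℝ → ℝ,
      ContinuousOn (fun p : ℝ × ℝ × ℝ => f p.1 p.2.1 p.2.2) (Icc T0 T1 ×ˢ Ici 0 ×ˢ univ) →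
      ContinuousOn (fun p : ℝ × ℝ => f p.1 p.2 x) (Icc t T1 ×ˢ Ici 0) := by
    intro f hf
    have h1 : Continuous fun p : ℝ × ℝ => ((p.1, p.2, x) : ℝ × ℝ × ℝ) := by fun_prop
    refine hf.comp h1.continuousOn ?_
    rintro p ⟨hp1, hp2⟩
    exact ⟨hsub hp1, hp2, mem_univ _⟩
  exact h a t T1 C ρ (fun r w => g r w x) (fun r w => gw r w x) ha ht.2 hρ
    (fun r hr => hρC r (hsub hr)) hρt (fun r hr w hw => hd r (hsub hr) w hw x)
    (hmap g hg) (hmap gw hgw)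

/-- everything for a kernel -/
theorem r_gen {k kx kxx kw : ℝ → ℝ → ℝ → ℝ} (h : St_LEIB) (ha : 0 < a) (hρ : Measurable ρ)
    (hρC : ∀ r ∈ Icc T0 T1, |ρ r| ≤ C) (hρr : ∀ t ∈ Ico T0 T1, ContinuousWithinAt ρ (Ici t) t)
    (K : Ker T0 T1 C k kx kxx kw) :
    (∀ t ∈ Icc T0 T1, ∀ x, HasDerivAt (RI a T1 ρ k t) (RI a T1 ρ kx t x) x ∧
      HasDerivAt (RI a T1 ρ kx t) (RI a T1 ρ kxx t x) x) ∧
    (∀ t ∈ Ico T0 T1, ∀ x, HasDerivWithinAt (fun t => RI a T1 ρ k t x)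
      (-(ρ t * k t 0 x) - a * RI a T1 ρ kw t x) (Ici t) t) ∧
    ContinuousOn (fun p : ℝ × ℝ => RI a T1 ρ k p.1 p.2) (Icc T0 T1 ×ˢ univ) ∧
    (∀ t ∈ Icc T0 T1, ∀ x, |RI a T1 ρ k t x| ≤ C * C * (T1 - T0) ∧
      |RI a T1 ρ kx t x| ≤ C * C * (T1 - T0) ∧ |RI a T1 ρ kxx t x| ≤ C * C * (T1 - T0)) := by
  refine ⟨fun t ht x => ⟨?_, ?_⟩, fun t ht x => ?_, ?_, fun t ht x => ⟨?_, ?_, ?_⟩⟩
  · exact hasDerivAt_RI ha.le hρ hρC K.ck K.ckx K.bk K.bkx K.dx ht x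
  · exact hasDerivAt_RI ha.le hρ hρC K.ckx K.ckxx K.bkx K.bkxx K.dxx ht x
  · exact hasDerivWithinAt_RI h ha hρ hρC K.ck K.ckw K.dw ht (hρr t ht) x
  · exact continuousOn_RI ha.le hρ hρC K.ck K.bk
  · exact abs_RI_le ha.le hρC K.bk ht x
  · exact abs_RI_le ha.le hρC K.bkx ht x
  · exact abs_RI_le ha.le hρC K.bkxx ht x

end Pool.TH231.AT
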